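import Pool.Agent.Helper82.PN.St

/-!
# Project PN, module CQA : the combination of the box sieve with the fundamental lemma and Richert's weights

Model: module CQ of project KS (helper84).
-/

set_option autoImplicit false

namespace Pool.Agent.Helper51.PN

open Finset Filter Topology
open Pool.Agent.Helper82.PN
open Pool.Agent.Helper15.AB (StDB StMT)
open Pool.Agent.Helper9.TW (gm Qs fm StMER StC9)
open Pool.Agent.Helper18.TR (StLevel StBonf StFLmain)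
open Pool.Agent.Helper93.KS (bq Pq SW bmq idq ejq mg Gb Vq AD UQ LQ HU HL FSx StBXQ StT1 StCEL StBMQ)
open Pool.Agent.Helper60.GP (StM2)
open Pool.Agent.Helper30.EL (cs StT1E StSWB)

private theorem growth (C c1 : ℝ) (hC : 0 ≤ C) (hc : 0 < c1) :
    ∀ᶠ n : ℕ in atTop, C * (n : ℝ) ^ (999 / 1000 : ℝ) ≤ c1 * n / Real.log n ^ 3 := by
  have h1 : (fun x : ℝ => Real.log x ^ (3 : ℝ)) =o[atTop] fun x : ℝ => x ^ (1 / 1000 : ℝ) :=
    isLittleO_log_rpow_rpow_atTop 3 (by norm_num)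
  have h2 := (h1.bound (show 0 < c1 / (C + 1) by positivity))
  have h3 := tendsto_natCast_atTop_atTop (R := ℝ) |>.eventually h2
  filter_upwards [h3, eventually_ge_atTop 3] with a ha ha3
  have ha0 : (0 : ℝ) < a := by
    have : 0 < a := by omega
    exact_mod_cast this
  have hlog : 0 < Real.log a := Real.log_pos (by
    have : 1 < a := by omega
    exact_mod_cast this)
  have e1 : Real.log a ^ (3 : ℝ) = Real.log a ^ 3 := by
    rw [← Real.rpow_natCast]; norm_num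
  rw [e1, Real.norm_of_nonneg (by positivity), Real.norm_of_nonneg (by positivity)] at ha
  rw [le_div_iff₀ (by positivity)]
  have e2 : (a : ℝ) = (a : ℝ) ^ (999 / 1000 : ℝ) * (a : ℝ) ^ (1 / 1000 : ℝ) := by
    rw [← Real.rpow_add ha0]
    norm_num
  have hp0 : 0 < (a : ℝ) ^ (999 / 1000 : ℝ) := by positivity
  have hp1 : 0 < (a : ℝ) ^ (1 / 1000 : ℝ) := by positivity
  calc C * (a : ℝ) ^ (999 / 1000 : ℝ) * Real.log a ^ 3
      ≤ C * (a : ℝ) ^ (999 / 1000 : ℝ) * (c1 / (C + 1) * (a : ℝ) ^ (1 / 1000 : ℝ)) := by gcongr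
    _ = C / (C + 1) * (c1 * ((a : ℝ) ^ (999 / 1000 : ℝ) * (a : ℝ) ^ (1 / 1000 : ℝ))) := by
        ring
    _ = C / (C + 1) * (c1 * a) := by rw [← e2]
    _ ≤ 1 * (c1 * a) := by
        refine mul_le_mul_of_nonneg_right ?_ (by positivity)
        rw [div_le_one (by positivity)]
        linarith
    _ = c1 * a := one_mul _

private theorem gm_le (i : ℕ) (hi : 1 ≤ i) : gm i ≤ 1 / i := by
  unfold gm
  have h : (0 : ℝ) < i := by exact_mod_cast hi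
  have h1 := Real.log_le_sub_one_of_pos (show (0 : ℝ) < ((i : ℝ) + 1) / i by positivity)
  refine h1.trans_eq ?_
  field_simp
  ring

private theorem gm_nonneg (i : ℕ) (hi : 1 ≤ i) : 0 ≤ gm i := by
  unfold gm
  have h : (0 : ℝ) < i := by exact_mod_cast hi
  apply Real.log_nonneg
  rw [le_div_iff₀ h]
  linarith

private theorem Vq_ge (κ a j0 J : ℕ) (ω η : ℝ) (g : ℕ → ℝ) (hκ : κ ≤ 2) (hj0 : 50 ≤ j0)
    (hη : η ≤ 1 / 2) (h : AD κ a ω η j0 J g) :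
    (2 / 5 : ℝ) ^ (Ico j0 J).card ≤ Vq a ω g j0 J := by
  unfold Vq
  rw [← Finset.prod_const]
  refine Finset.prod_le_prod (fun i _ => by norm_num) fun i hi => ?_
  have h1 := h.2 i hi
  have h2 : j0 ≤ i := (Finset.mem_Ico.mp hi).1
  have h3 := gm_le i (by omega)
  have h50 : (50 : ℝ) ≤ i := by exact_mod_cast hj0.trans h2
  have h4 : (1 : ℝ) / i ≤ 1 / 50 := one_div_le_one_div_of_le (by norm_num) h50
  have h5 : (κ : ℝ) ≤ 2 := by exact_mod_cast hκ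
  have h6 : (κ : ℝ) * gm i ≤ 2 * (1 / 50) :=
    mul_le_mul h5 (h3.trans h4) (gm_nonneg i (by omega)) (by norm_num)
  linarith

private theorem AD_mono (κ a j0 J : ℕ) (ω η η' : ℝ) (g : ℕ → ℝ) (h : AD κ a ω η j0 J g)
    (hη : η ≤ η') : AD κ a ω η' j0 J g :=
  ⟨h.1, fun i hi => (h.2 i hi).trans (by linarith)⟩

private theorem eps_ex (s : Finset ℕ) (c k w : ℕ → ℝ) (l0 u0 P : ℝ) (hP : 0 < P)
    (hPe : P = (1 - l0) - 2 / 1000 * (1 + u0) - 1001 / 1000 * ∑ j ∈ s, c j * (k j * (1 + w j))) :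
    ∃ ε : ℝ, 0 < ε ∧ P / 2 ≤ (1 - l0 - ε) - 2 / 1000 * (1 + u0 + ε) -
      1001 / 1000 * ∑ j ∈ s, c j * ((k j + ε) * (1 + w j + ε)) := by
  have hc : Continuous fun ε : ℝ => (1 - l0 - ε) - 2 / 1000 * (1 + u0 + ε) -
      1001 / 1000 * ∑ j ∈ s, c j * ((k j + ε) * (1 + w j + ε)) := by
    fun_prop
  have h0 : (1 - l0 - 0) - 2 / 1000 * (1 + u0 + 0) -
      1001 / 1000 * ∑ j ∈ s, c j * ((k j + 0) * (1 + w j + 0)) = P := by
    rw [hPe]
    simp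
  have h1 := hc.tendsto 0
  rw [h0] at h1
  have h2 := h1.eventually (eventually_ge_nhds (show P / 2 < P by linarith))
  have h3 : ∀ᶠ ε : ℝ in 𝓝[>] 0, P / 2 ≤ (1 - l0 - ε) - 2 / 1000 * (1 + u0 + ε) -
      1001 / 1000 * ∑ j ∈ s, c j * ((k j + ε) * (1 + w j + ε)) :=
    h2.filter_mono nhdsWithin_le_nhds
  obtain ⟨ε, h4, h5⟩ := (h3.and self_mem_nhdsWithin).exists
  exact ⟨ε, h5, h4⟩

private theorem main_ineq (V W t0 t1 l0 u0 P ε m p : ℝ) (s : Finset ℕ) (c k w G mi : ℕ → ℝ)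
    (hV0 : 0 ≤ V) (hW : 0 ≤ W) (T1 : V ≤ t0) (T2 : t0 ≤ (1 + 1 / 1000) * V)
    (T3 : (1 - 1 / 1000) * V ≤ t1) (T4 : t1 ≤ V) (hl : 0 ≤ 1 - l0 - ε) (hu : 0 ≤ 1 + u0 + ε)
    (hc : ∀ i ∈ s, 0 ≤ c i) (hG : ∀ i ∈ s, 0 ≤ G i) (hGk : ∀ i ∈ s, G i ≤ k i + ε)
    (hw : ∀ i ∈ s, 0 ≤ 1 + w i + ε)
    (hP : P / 2 ≤ (1 - l0 - ε) - 2 / 1000 * (1 + u0 + ε) -
      1001 / 1000 * ∑ j ∈ s, c j * ((k j + ε) * (1 + w j + ε)))
    (lm : (1 - l0 - ε) * W ≤ m) (lp : p ≤ (1 + u0 + ε) * W)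
    (li : ∀ i ∈ s, mi i ≤ (1 + w i + ε) * W) :
    V * W * (P / 2) ≤ t0 * m - (t0 - t1) * p - t0 * ∑ i ∈ s, c i * (G i * mi i) := by
  have ht0 : 0 ≤ t0 := hV0.trans T1
  have hd : 0 ≤ t0 - t1 := by linarith
  have hd2 : t0 - t1 ≤ 2 / 1000 * V := by linarith
  have m1 : V * W * (1 - l0 - ε) ≤ t0 * m := by
    calc V * W * (1 - l0 - ε) = V * ((1 - l0 - ε) * W) := by ring
      _ ≤ t0 * ((1 - l0 - ε) * W) := mul_le_mul_of_nonneg_right T1 (mul_nonneg hl hW)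
      _ ≤ t0 * m := mul_le_mul_of_nonneg_left lm ht0
  have m2 : (t0 - t1) * p ≤ V * W * (2 / 1000 * (1 + u0 + ε)) := by
    calc (t0 - t1) * p ≤ (t0 - t1) * ((1 + u0 + ε) * W) := mul_le_mul_of_nonneg_left lp hd
      _ ≤ 2 / 1000 * V * ((1 + u0 + ε) * W) := mul_le_mul_of_nonneg_right hd2 (mul_nonneg hu hW)
      _ = V * W * (2 / 1000 * (1 + u0 + ε)) := by ring
  have m3 : ∑ i ∈ s, c i * (G i * mi i) ≤
      W * ∑ j ∈ s, c j * ((k j + ε) * (1 + w j + ε)) := by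
    rw [Finset.mul_sum]
    refine Finset.sum_le_sum fun i hi => ?_
    have a1 : G i * mi i ≤ G i * ((1 + w i + ε) * W) := mul_le_mul_of_nonneg_left (li i hi) (hG i hi)
    have a2 : G i * ((1 + w i + ε) * W) ≤ (k i + ε) * ((1 + w i + ε) * W) :=
      mul_le_mul_of_nonneg_right (hGk i hi) (mul_nonneg (hw i hi) hW)
    calc c i * (G i * mi i) ≤ c i * ((k i + ε) * ((1 + w i + ε) * W)) :=
          mul_le_mul_of_nonneg_left (a1.trans a2) (hc i hi)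
      _ = W * (c i * ((k i + ε) * (1 + w i + ε))) := by ring
  have hS : 0 ≤ ∑ j ∈ s, c j * ((k j + ε) * (1 + w j + ε)) :=
    Finset.sum_nonneg fun i hi => mul_nonneg (hc i hi)
      (mul_nonneg ((hG i hi).trans (hGk i hi)) (hw i hi))
  have m4 : t0 * ∑ i ∈ s, c i * (G i * mi i) ≤
      V * W * (1001 / 1000 * ∑ j ∈ s, c j * ((k j + ε) * (1 + w j + ε))) := by
    calc t0 * ∑ i ∈ s, c i * (G i * mi i)
        ≤ t0 * (W * ∑ j ∈ s, c j * ((k j + ε) * (1 + w j + ε))) := mul_le_mul_of_nonneg_left m3 ht0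
      _ ≤ (1 + 1 / 1000) * V * (W * ∑ j ∈ s, c j * ((k j + ε) * (1 + w j + ε))) :=
          mul_le_mul_of_nonneg_right T2 (mul_nonneg hW hS)
      _ = V * W * (1001 / 1000 * ∑ j ∈ s, c j * ((k j + ε) * (1 + w j + ε))) := by ring
  have m5 := mul_le_mul_of_nonneg_left hP (mul_nonneg hV0 hW)
  have m6 : V * W * ((1 - l0 - ε) - 2 / 1000 * (1 + u0 + ε) -
      1001 / 1000 * ∑ j ∈ s, c j * ((k j + ε) * (1 + w j + ε))) = V * W * (1 - l0 - ε) -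
      V * W * (2 / 1000 * (1 + u0 + ε)) -
      V * W * (1001 / 1000 * ∑ j ∈ s, c j * ((k j + ε) * (1 + w j + ε))) := by ring
  rw [m6] at m5
  linarith

private theorem combine (K t0 t1 m p A B C Cc N Bm Bp : ℝ) (s : Finset ℕ)
    (c D Gm Bi : ℕ → ℝ) (hc : ∀ i ∈ s, 0 ≤ c i)
    (hA : |A - K * t0 * m| ≤ Cc * Bm * N) (hB : |B - K * t1 * p| ≤ Cc * Bp * N)
    (hC : |C - K * t0 * p| ≤ Cc * Bp * N)
    (hD : ∀ i ∈ s, |D i - K * t0 * Gm i| ≤ Cc * Bi i * N) :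
    K * (t0 * m - (t0 - t1) * p - t0 * ∑ i ∈ s, c i * Gm i) -
      Cc * (Bm + 2 * Bp + ∑ i ∈ s, c i * Bi i) * N ≤ A + B - C - ∑ i ∈ s, c i * D i := by
  have h1 := (abs_le.mp hA).1
  have h2 := (abs_le.mp hB).1
  have h3 := (abs_le.mp hC).2
  have h4 : ∑ i ∈ s, c i * D i ≤
      K * t0 * ∑ i ∈ s, c i * Gm i + Cc * (∑ i ∈ s, c i * Bi i) * N := by
    have e : Cc * (∑ i ∈ s, c i * Bi i) * N = (Cc * N) * ∑ i ∈ s, c i * Bi i := by ring
    rw [e, Finset.mul_sum, Finset.mul_sum, ← Finset.sum_add_distrib]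
    refine Finset.sum_le_sum fun i hi => ?_
    have h5 := mul_le_mul_of_nonneg_left (abs_le.mp (hD i hi)).2 (hc i hi)
    have e2 : c i * (D i - K * t0 * Gm i) = c i * D i - K * t0 * (c i * Gm i) := by ring
    have e3 : c i * (Cc * Bi i * N) = Cc * N * (c i * Bi i) := by ring
    rw [e2, e3] at h5
    linarith
  have e4 : K * (t0 * m - (t0 - t1) * p - t0 * ∑ i ∈ s, c i * Gm i) -
      Cc * (Bm + 2 * Bp + ∑ i ∈ s, c i * Bi i) * N =
      (K * t0 * m - Cc * Bm * N) + (K * t1 * p - Cc * Bp * N) - (K * t0 * p + Cc * Bp * N) -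
      (K * t0 * ∑ i ∈ s, c i * Gm i + Cc * (∑ i ∈ s, c i * Bi i) * N) := by ring
  rw [e4]
  linarith

private theorem vk_pos (a n j : ℕ) (ha : 60 ≤ a) (hj : j ∈ Icc 1 (a / 60)) :
    1 ≤ vk n (kj n j) := by
  obtain ⟨hj1, hj2⟩ := Finset.mem_Icc.mp hj
  have h1 := (kj_le n j a ha hj2).1
  have h2 : 0 < kj n j ^ 2 := by positivity
  unfold vk
  omega

theorem hCQA (h8 : StC8A) (hV : StVLA) (h9 : StC9) (hT : StTYA) (hB : StBMQ) : StCQA := by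
  intro z₀ J₀ lam hlam hz₀ hzJ hJ98 hFS
  obtain ⟨f, -, h8⟩ := h8
  obtain ⟨θ₁, hθ₁, hT⟩ := hT f
  obtain ⟨u, j0, hu, hj50, hj0z, hθ, l0, u0, w, hl0, hu0, hw, hLo, hUp, hUj, hpos⟩ :=
    hFS (min θ₁ (1 / 100)) (lt_min hθ₁ (by norm_num)) (min_le_right _ _)
  obtain ⟨c0, hc0, hV⟩ := hV
  have hu' : (0 : ℝ) < u := by exact_mod_cast hu
  have hJ0 : (0 : ℝ) < J₀ := by
    have : 0 < J₀ := by omega
    exact_mod_cast this
  obtain ⟨Bm, Lm, hBm, wm, dm, tm⟩ := hLo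
  obtain ⟨Bp, Lp, hBp, wp, dp, tp⟩ := hUp
  unfold UQ at hUj
  choose! Bj Lj hBj wj dj tj using hUj
  refine ⟨u, j0, hu, hj50, hj0z, ?_⟩
  set ω : ℝ := 1 / (100 * (u : ℝ)) with hωd
  have hω : 0 < ω := by positivity
  have hωu : (u : ℝ) * ω = 1 / 100 := by
    rw [hωd]
    field_simp
  set θ : ℝ := (j0 : ℝ) * ω with hθd
  have hj0' : (0 : ℝ) < j0 := by
    have : 0 < j0 := by omega
    exact_mod_cast this
  have hθ0 : 0 < θ := by positivity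
  have hθ1 : θ ≤ 1 := hθ.trans ((min_le_right _ _).trans (by norm_num))
  obtain ⟨C, hC, hTC⟩ := hT θ hθ0 (hθ.trans (min_le_left _ _))
  set s : Finset ℕ := Ico (z₀ * u) (J₀ * u) with hs
  set c : ℕ → ℝ := fun i => lam * (1 - (i : ℝ) / (J₀ * u)) with hc
  have hcn : ∀ i ∈ s, 0 ≤ c i := by
    intro i hi
    have h1 : (i : ℝ) ≤ J₀ * u := by
      have h2 : i ≤ J₀ * u := (Finset.mem_Ico.mp hi).2.le
      exact_mod_cast h2
    have h2 : (i : ℝ) / (J₀ * u) ≤ 1 := by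
      rw [div_le_iff₀ (by positivity)]; linarith
    rw [hc]
    simp only
    have : 0 ≤ 1 - (i : ℝ) / (J₀ * u) := by linarith
    positivity
  -- levels
  have hlev : (((99 * u : ℕ) : ℝ)) * ω = 99 / 100 := by
    push_cast
    rw [mul_assoc, hωu]
    norm_num
  have hlevj : ∀ i ∈ s, ((99 * u - (i + 1) : ℕ) : ℝ) * ω + ((i : ℝ) + 1) * ω = 99 / 100 := by
    intro i hi
    have h2 : i + 1 ≤ J₀ * u := (Finset.mem_Ico.mp hi).2
    have h3 : J₀ * u ≤ 98 * u := Nat.mul_le_mul_right _ hJ98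
    have h4 : i + 1 ≤ 99 * u := by omega
    rw [Nat.cast_sub h4, ← hlev]
    push_cast
    ring
  -- the choice of ε
  set P : ℝ := (1 - l0) - 2 / 1000 * (1 + u0) -
    1001 / 1000 * ∑ j ∈ s, c j * (((kfo u j : ℝ) * gm j) * (1 + w j)) with hP
  have hP0 : 0 < P := by
    have e : 1001 / 1000 * lam *
      ∑ j ∈ s, (kfo u j : ℝ) * gm j * (1 - (j : ℝ) / (J₀ * u)) * (1 + w j) =
      1001 / 1000 * ∑ j ∈ s, c j * (((kfo u j : ℝ) * gm j) * (1 + w j)) := by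
      rw [mul_assoc, Finset.mul_sum, Finset.mul_sum, Finset.mul_sum]
      refine Finset.sum_congr rfl fun j _ => ?_
      rw [hc]
      ring
    rw [e] at hpos
    exact hpos
  obtain ⟨ε, hε0, hε⟩ := eps_ex s c (fun j => (kfo u j : ℝ) * gm j) w l0 u0 P hP0 hP
  obtain ⟨ηm, hηm0, tm⟩ := tm ε hε0
  obtain ⟨ηp, hηp0, tp⟩ := tp ε hε0
  have tj' : ∀ j ∈ s, ∃ η : ℝ, 0 < η ∧ ∀ᶠ a : ℕ in atTop, ∀ g : ℕ → ℝ,
      AD 1 a ω η j0 (z₀ * u) g → mg a g (Lj j a) ≤ (1 + w j + ε) * Vq a ω g j0 (z₀ * u) :=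
    fun j hj => tj j hj ε hε0
  choose! ηj hηj0 tj' using tj'
  have hηex : ∃ η : ℝ, 0 < η ∧ η ≤ 1 / 2 ∧ η ≤ ε ∧ η ≤ ηm ∧ η ≤ ηp ∧ ∀ j ∈ s, η ≤ ηj j := by
    have h1 : ∀ᶠ η : ℝ in 𝓝[>] 0, ∀ j ∈ s, η ≤ ηj j := by
      rw [Filter.eventually_all_finset]
      intro j hj
      exact (eventually_le_nhds (hηj0 j hj)).filter_mono nhdsWithin_le_nhds
    have h2 : ∀ x : ℝ, 0 < x → ∀ᶠ η : ℝ in 𝓝[>] 0, η ≤ x := fun x hx =>
      (eventually_le_nhds hx).filter_mono nhdsWithin_le_nhds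
    have h0 : ∀ᶠ η : ℝ in 𝓝[>] 0, η ∈ Set.Ioi (0 : ℝ) := self_mem_nhdsWithin
    obtain ⟨η, a1, a2, a3, a4, a5, a6⟩ := (h0.and ((h2 (1 / 2) (by norm_num)).and
      ((h2 ε hε0).and ((h2 ηm hηm0).and ((h2 ηp hηp0).and h1))))).exists
    exact ⟨η, a1, a2, a3, a4, a5, a6⟩
  obtain ⟨η, hη0, hη2, hηε, hηm, hηp, hηj⟩ := hηex
  set cW : ℝ := (2 / 5 : ℝ) ^ (Ico j0 (z₀ * u)).card with hcW
  have hcW0 : 0 < cW := by positivity
  set c1 : ℝ := c0 * cW * P / 480 with hc1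
  have hc10 : 0 < c1 := by positivity
  refine ⟨η, c1, hη0, hc10, ?_⟩
  set Es : ℝ := C * (Bm + 2 * Bp + ∑ i ∈ s, c i * Bj i) with hEs
  have hEs0 : 0 ≤ Es := by
    have h1 : 0 ≤ ∑ i ∈ s, c i * Bj i :=
      Finset.sum_nonneg fun i hi => mul_nonneg (hcn i hi) (hBj i hi)
    have : 0 ≤ Bm + 2 * Bp + ∑ i ∈ s, c i * Bj i := by positivity
    positivity
  suffices hev : ∀ᶠ a : ℕ in atTop, ∀ n : ℕ, a ≤ n →
      (∀ i ∈ Ico j0 (J₀ * u), Gb a ω (gn n) i ≤ gm i + η) →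
      c1 * a / Real.log a ^ 3 ≤ ∑ j ∈ Icc 1 (a / 60), qk a ((j0 : ℝ) * ω) n j *
        idq a ω j0 (z₀ * u) (vk n (kj n j)) *
        (1 - ∑ i ∈ s, lam * (1 - (i : ℝ) / (J₀ * u)) * (ejq a ω i (vk n (kj n j)) : ℝ)) by
    obtain ⟨a₀, hev⟩ := eventually_atTop.1 hev
    exact ⟨a₀, fun a n ha => hev a ha n⟩
  have hwj : ∀ᶠ a : ℕ in atTop, ∀ j ∈ s, SW a ω j0 (z₀ * u) (((99 * u - (j + 1) : ℕ) : ℝ) * ω)
      (Bj j) (Lj j a) := by
    rw [Filter.eventually_all_finset]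
    exact fun j hj => wj j hj
  have hdj : ∀ᶠ a : ℕ in atTop, ∀ j ∈ s, ∀ m : ℕ, 1 ≤ m → idq a ω j0 (z₀ * u) m ≤
      ∑ q ∈ m.divisors, Lj j a q := by
    rw [Filter.eventually_all_finset]
    exact fun j hj => dj j hj
  have htj : ∀ᶠ a : ℕ in atTop, ∀ j ∈ s, ∀ g : ℕ → ℝ,
      AD 1 a ω (ηj j) j0 (z₀ * u) g → mg a g (Lj j a) ≤ (1 + w j + ε) * Vq a ω g j0 (z₀ * u) := by
    rw [Filter.eventually_all_finset]
    exact fun j hj => tj' j hj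
  filter_upwards [wm, wp, hwj, dm, dp, hdj, tm, tp, htj, growth Es c1 hEs0 hc10,
    eventually_ge_atTop 120] with a wm' wp' wj' dm' dp' dj' tm' tp' tj'' hgr hn n han hGD
  have hAD : AD 1 a ω η j0 (z₀ * u) (gn n) := by
    refine ⟨fun p => by unfold gn; positivity, fun i hi => ?_⟩
    have h1 := Finset.mem_Ico.1 hi
    have h2 : z₀ * u ≤ J₀ * u := Nat.mul_le_mul_right _ hzJ
    have h3 := hGD i (Finset.mem_Ico.2 ⟨h1.1, h1.2.trans_le h2⟩)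
    rw [Nat.cast_one, one_mul]
    exact h3
  have hGb : ∀ i ∈ s, Gb a ω (gn n) i ≤ (kfo u i : ℝ) * gm i + η := by
    intro i hi
    have h1 := Finset.mem_Ico.1 (hs ▸ hi)
    have h3 := hGD i (Finset.mem_Ico.2 ⟨hj0z.trans h1.1, h1.2⟩)
    unfold kfo
    rw [Nat.cast_one, one_mul]
    exact h3
  have hn0 : (0 : ℝ) < a := by
    have : 0 < a := by omega
    exact_mod_cast this
  have hlog : 0 < Real.log a := Real.log_pos (by
    have : 1 < a := by omega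
    exact_mod_cast this)
  obtain ⟨hth, T1, T2, T3, T4⟩ := h8 a n θ (by omega) hθ0
  set V : ℝ := ∏ p ∈ Qs a θ, (1 - gn n p) with hVd
  have hVa := hV a n θ (by omega) hθ0 hθ1
  rw [← hVd] at hVa
  have hV0 : 0 ≤ V := le_trans (by positivity) hVa
  obtain ⟨W, hWd⟩ : ∃ W : ℝ, W = Vq a ω (gn n) j0 (z₀ * u) := ⟨_, rfl⟩
  have hW1 : cW ≤ W := by
    rw [hWd]
    exact Vq_ge 1 a j0 (z₀ * u) ω η (gn n) (by norm_num) hj50 hη2 hAD
  have hW0 : 0 ≤ W := hcW0.le.trans hW1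
  have lm := tm' (gn n) (AD_mono _ _ _ _ _ _ _ _ hAD hηm)
  have lp := tp' (gn n) (AD_mono _ _ _ _ _ _ _ _ hAD hηp)
  have li : ∀ i ∈ s, mg a (gn n) (Lj i a) ≤ (1 + w i + ε) * W := fun i hi => by
    rw [hWd]
    exact tj'' i hi (gn n) (AD_mono _ _ _ _ _ _ _ _ hAD (hηj i hi))
  rw [← hWd] at lm lp
  have hG0 : ∀ i ∈ s, 0 ≤ Gb a ω (gn n) i := fun i _ => Finset.sum_nonneg fun p _ => hAD.1 p
  have hGk : ∀ i ∈ s, Gb a ω (gn n) i ≤ (kfo u i : ℝ) * gm i + ε := fun i hi =>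
    (hGb i hi).trans (by linarith)
  have hk0 : ∀ i ∈ s, 0 ≤ (kfo u i : ℝ) * gm i := by
    intro i hi
    have h1 : z₀ * u ≤ i := (Finset.mem_Ico.mp hi).1
    have h2 : 1 ≤ z₀ * u := Nat.mul_pos hz₀ hu
    exact mul_nonneg (Nat.cast_nonneg _) (gm_nonneg i (by omega))
  have hl : 0 ≤ 1 - l0 - ε := by
    have h1 : 0 ≤ ∑ j ∈ s, c j * (((kfo u j : ℝ) * gm j + ε) * (1 + w j + ε)) :=
      Finset.sum_nonneg fun i hi => mul_nonneg (hcn i hi) (mul_nonneg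
        (by have := hk0 i hi; linarith) (by have := hw i; linarith))
    have h2 : 0 ≤ 2 / 1000 * (1 + u0 + ε) := by positivity
    linarith
  have main := main_ineq V W _ _ l0 u0 P ε _ _ s c (fun j => (kfo u j : ℝ) * gm j) w
    (fun i => Gb a ω (gn n) i) (fun i => mg a (gn n) (Lj i a)) hV0 hW0 T1 T2 T3 T4 hl
    (by linarith) hcn hG0 hGk (fun i _ => by have := hw i; linarith) hε lm lp li
  -- the level of distribution
  have em := hTC 0 a n j0 (z₀ * u) ω _ Bm (Lm a) (by omega) han hω le_rfl hBm (by rw [hlev]; norm_num)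
    (by rw [hlev]) wm'
  have ep0 := hTC 0 a n j0 (z₀ * u) ω _ Bp (Lp a) (by omega) han hω le_rfl hBp (by rw [hlev]; norm_num)
    (by rw [hlev]) wp'
  have ep1 := hTC 1 a n j0 (z₀ * u) ω _ Bp (Lp a) (by omega) han hω le_rfl hBp (by rw [hlev]; norm_num)
    (by rw [hlev]) wp'
  have hBM : ∀ i ∈ s, SW a ω j0 (i + 1) (99 / 100) (Bj i) (bmq a ω i (Lj i a)) ∧
      mg a (gn n) (bmq a ω i (Lj i a)) = Gb a ω (gn n) i * mg a (gn n) (Lj i a) ∧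
      ∀ m : ℕ, 1 ≤ m → ∑ q ∈ m.divisors, bmq a ω i (Lj i a) q =
        (ejq a ω i m : ℝ) * ∑ q ∈ m.divisors, Lj i a q := by
    intro i hi
    have h1 := hB a j0 (z₀ * u) i ω _ (Bj i) (Lj i a) (gn n) (by omega) hω (hBj i hi)
      (mul_nonneg (Nat.cast_nonneg (99 * u - (i + 1))) hω.le) hj0z (Finset.mem_Ico.mp hi).1
      (by rw [hlevj i hi]; norm_num) (wj' i hi)
    rw [hlevj i hi] at h1
    exact h1
  have eD : ∀ i ∈ s, |∑ j' ∈ Icc 1 (a / 60), tk 0 a θ f n j' *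
      ∑ q ∈ (vk n (kj n j')).divisors, bmq a ω i (Lj i a) q -
      ((a / 60 : ℕ) : ℝ) * TK 0 a θ f n * (Gb a ω (gn n) i * mg a (gn n) (Lj i a))| ≤
      C * Bj i * (a : ℝ) ^ (999 / 1000 : ℝ) := by
    intro i hi
    obtain ⟨b1, b2, -⟩ := hBM i hi
    rw [← b2]
    exact hTC 0 a n j0 (i + 1) ω _ (Bj i) _ (by omega) han hω le_rfl (hBj i hi) (by norm_num)
      le_rfl b1
  -- the pointwise inequality
  have hpt : ∀ j ∈ Icc 1 (a / 60),
      tk 0 a θ f n j * (∑ q ∈ (vk n (kj n j)).divisors, Lm a q) +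
        tk 1 a θ f n j * (∑ q ∈ (vk n (kj n j)).divisors, Lp a q) -
        tk 0 a θ f n j * (∑ q ∈ (vk n (kj n j)).divisors, Lp a q) -
        ∑ i ∈ s, c i * (tk 0 a θ f n j *
          ∑ q ∈ (vk n (kj n j)).divisors, bmq a ω i (Lj i a) q) ≤
      qk a θ n j * idq a ω j0 (z₀ * u) (vk n (kj n j)) *
        (1 - ∑ i ∈ s, lam * (1 - (i : ℝ) / (J₀ * u)) * (ejq a ω i (vk n (kj n j)) : ℝ)) := by
    intro j hj
    have hv := vk_pos a n j (by omega) hj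
    have hi0 : 0 ≤ idq a ω j0 (z₀ * u) (vk n (kj n j)) ∧
        idq a ω j0 (z₀ * u) (vk n (kj n j)) ≤ 1 := by
      unfold idq; split_ifs <;> norm_num
    have hq : 0 ≤ qk a θ n j ∧ qk a θ n j ≤ 1 := by
      unfold qk; split_ifs <;> norm_num
    refine h9 (qk a θ n j) (idq a ω j0 (z₀ * u) (vk n (kj n j)))
      (tk 0 a θ f n j) (tk 1 a θ f n j)
      (∑ q ∈ (vk n (kj n j)).divisors, Lp a q) (∑ q ∈ (vk n (kj n j)).divisors, Lm a q)
      s (fun i => (ejq a ω i (vk n (kj n j)) : ℝ))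
      (fun i => ∑ q ∈ (vk n (kj n j)).divisors, bmq a ω i (Lj i a) q) c
      hq.1 hq.2 hi0.1 hi0.2 (hth j).1 (hth j).2 (dm' _ hv) (dp' _ hv)
      (fun i hi => ⟨hcn i hi, Nat.cast_nonneg _⟩) (fun i hi => ?_)
    rw [(hBM i hi).2.2 _ hv, mul_comm]
    exact mul_le_mul_of_nonneg_left (dj' i hi _ hv) (Nat.cast_nonneg _)
  refine le_trans ?_ (Finset.sum_le_sum hpt)
  rw [Finset.sum_sub_distrib, Finset.sum_sub_distrib, Finset.sum_add_distrib, Finset.sum_comm]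
  simp only [← Finset.mul_sum]
  refine le_trans ?_ (combine ((a / 60 : ℕ) : ℝ) (TK 0 a θ f n) (TK 1 a θ f n)
    (mg a (gn n) (Lm a)) (mg a (gn n) (Lp a)) _ _ _ C ((a : ℝ) ^ (999 / 1000 : ℝ)) Bm Bp s c
    (fun i => ∑ j' ∈ Icc 1 (a / 60), tk 0 a θ f n j' *
      ∑ q ∈ (vk n (kj n j')).divisors, bmq a ω i (Lj i a) q)
    (fun i => Gb a ω (gn n) i * mg a (gn n) (Lj i a)) Bj hcn em ep1 ep0 eD)
  rw [← hEs]
  have hK : (a : ℝ) / 120 ≤ ((a / 60 : ℕ) : ℝ) := by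
    have h1 : a ≤ 120 * (a / 60) := by omega
    have h2 : (a : ℝ) ≤ ((120 * (a / 60) : ℕ) : ℝ) := by exact_mod_cast h1
    push_cast at h2 ⊢
    linarith
  have main2 := mul_le_mul_of_nonneg_left main (Nat.cast_nonneg (α := ℝ) (a / 60))
  have main3 : 2 * (c1 * a / Real.log a ^ 3) ≤ ((a / 60 : ℕ) : ℝ) * (V * W * (P / 2)) := by
    calc 2 * (c1 * a / Real.log a ^ 3) =
          (a : ℝ) / 120 * (c0 / Real.log a ^ 3 * cW * (P / 2)) := by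
          rw [hc1]; ring
      _ ≤ ((a / 60 : ℕ) : ℝ) * (V * W * (P / 2)) := by gcongr
  linarith

end Pool.Agent.Helper51.PN
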